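import Pool.Agent.W96.CL.Stm

set_option autoImplicit false

/-! # CL-MASS: the main error term -/

open Polynomial Filter Topology MeasureTheory

namespace W96CL

namespace MassAux

variable {n : ℕ} {θ z0 : ℝ} {s r : ℝ → ℝ} {lam : ℝ}

lemma H_nonneg (h : TBA n θ z0 s r lam) (v : ℝ) : 0 ≤ Real.log 3 - Real.log (1 - s v) := by
  have h1 := h.s_lt v
  have h2 := h.s_ge v
  have := Real.log_le_log (by linarith : 0 < 1 - s v) (by linarith : 1 - s v ≤ 3)
  linarith

lemma H_le (h : TBA n θ z0 s r lam) {v : ℝ} (hv : z0 < v) :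
    Real.log 3 - Real.log (1 - s v) ≤ Real.log 3 := by
  have h1 := h.s_neg v (by rw [abs_of_pos (h.z0pos.trans hv)]; exact hv)
  have := Real.log_nonneg (by linarith : 1 ≤ 1 - s v)
  linarith

lemma H_cont (he : S_ev) (h : TBA n θ z0 s r lam) :
    Continuous (fun v => Real.log 3 - Real.log (1 - s v)) :=
  continuous_const.sub (he n θ z0 s r lam h).1.diff.continuous

lemma exp_int (a : ℝ) : IntegrableOn (fun v : ℝ => Real.exp (-(3 * v / 2))) (Set.Ioi a) := by
  have h1 := exp_neg_integrableOn_Ioi a (by norm_num : (0 : ℝ) < 3 / 2)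
  refine h1.congr_fun (fun v _ => ?_) measurableSet_Ioi
  simp only
  congr 1
  ring

lemma exp_val (a : ℝ) : ∫ v in Set.Ioi a, Real.exp (-(3 * v / 2)) =
    2 / 3 * Real.exp (-(3 * a / 2)) := by
  have h1 := integral_exp_mul_Ioi (by norm_num : (-(3 / 2) : ℝ) < 0) a
  have h2 : ∫ v in Set.Ioi a, Real.exp (-(3 * v / 2)) = ∫ v in Set.Ioi a, Real.exp (-(3 / 2) * v) :=
    integral_congr_ae (Filter.Eventually.of_forall fun v => by simp only; congr 1; ring)
  rw [h2, h1]
  have : -(3 / 2) * a = -(3 * a / 2) := by ring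
  rw [this]
  ring

lemma H_int (he : S_ev) (h : TBA n θ z0 s r lam) :
    IntegrableOn (fun v => (Real.log 3 - Real.log (1 - s v)) * Real.exp (-(3 * v / 2)))
      (Set.Ioi 0) := by
  obtain ⟨K, hK⟩ := (he n θ z0 s r lam h).1.dec
  have h1 : IntegrableOn (fun v : ℝ => K * Real.exp (-(3 * v / 2))) (Set.Ioi 0) :=
    (exp_int 0).const_mul K
  refine h1.mono' ?_ ?_
  · exact ((H_cont he h).mul (by fun_prop)).aestronglyMeasurable
  · refine Filter.Eventually.of_forall fun v => ?_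
    have h2 := (hK v).1
    have hK0 : 0 ≤ K := by
      have h3 := (abs_nonneg _).trans h2
      exact nonneg_of_mul_nonneg_left h3 (Real.exp_pos _)
    rw [Real.norm_eq_abs, abs_mul, abs_of_pos (Real.exp_pos (-(3 * v / 2)))]
    refine mul_le_mul_of_nonneg_right ?_ (Real.exp_pos _).le
    rw [abs_sub_comm]
    refine h2.trans ?_
    have h4 : Real.exp (-|v|) ≤ 1 := Real.exp_le_one_iff.2 (neg_nonpos.2 (abs_nonneg v))
    nlinarith

/-- the bound for one value of `n` -/
lemma bound (hp : S_pos) (he : S_ev) (h : TBA n θ z0 s r lam) {V δ : ℝ} (hV : 0 ≤ V)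
    (hV0 : V ≤ z0) (hδ : 0 < δ) :
    Real.exp (-(3 * z0 / 2)) * ∫ v in Set.Ioi (0 : ℝ),
      (Real.log 3 - Real.log (1 - s v)) * Real.exp (-(3 * v / 2)) ≤
    2 / 3 * Real.log 3 * Real.exp (-(3 * z0 / 2)) + 5 * Real.exp (-(3 * V)) +
      V * Real.exp ((3 / 2 + δ) * V) * (5 * δ / (1 - Real.exp (-(δ * z0)))) := by
  obtain ⟨-, hp1, hp2⟩ := hp n θ z0 s r lam h
  set H : ℝ → ℝ := fun v => Real.log 3 - Real.log (1 - s v) with hH
  have hH0 : ∀ v, 0 ≤ H v := H_nonneg h
  have hz := h.z0pos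
  have hint := H_int he h
  have hint' : IntegrableOn (fun v => H v * Real.exp (-(3 * v / 2))) (Set.Ioi 0) := hint
  set E := Real.exp (3 * z0 / 2) with hE
  have hEpos : 0 < E := Real.exp_pos _
  have hEinv : Real.exp (-(3 * z0 / 2)) = E⁻¹ := by rw [Real.exp_neg]
  -- split the integral
  have hs1 : Set.Ioi (0 : ℝ) = Set.Ioc 0 V ∪ (Set.Ioc V z0 ∪ Set.Ioi z0) := by
    rw [Set.Ioc_union_Ioi_eq_Ioi hV0, Set.Ioc_union_Ioi_eq_Ioi hV]
  have hsub1 : IntegrableOn (fun v => H v * Real.exp (-(3 * v / 2))) (Set.Ioc 0 V) :=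
    hint'.mono_set fun v hv => hv.1
  have hsub2 : IntegrableOn (fun v => H v * Real.exp (-(3 * v / 2))) (Set.Ioc V z0) :=
    hint'.mono_set fun v hv => lt_of_le_of_lt hV hv.1
  have hsub3 : IntegrableOn (fun v => H v * Real.exp (-(3 * v / 2))) (Set.Ioi z0) :=
    hint'.mono_set fun v hv => hz.trans hv
  have hd2 : Disjoint (Set.Ioc V z0) (Set.Ioi z0) := by
    rw [Set.disjoint_left]
    intro v hv hv'
    exact absurd hv.2 (not_le.2 hv')
  have hd1 : Disjoint (Set.Ioc 0 V) (Set.Ioc V z0 ∪ Set.Ioi z0) := by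
    rw [Set.Ioc_union_Ioi_eq_Ioi hV0, Set.disjoint_left]
    intro v hv hv'
    exact absurd hv.2 (not_le.2 hv')
  have hsplit : ∫ v in Set.Ioi (0 : ℝ), H v * Real.exp (-(3 * v / 2)) =
      (∫ v in Set.Ioc 0 V, H v * Real.exp (-(3 * v / 2))) +
      ((∫ v in Set.Ioc V z0, H v * Real.exp (-(3 * v / 2))) +
        ∫ v in Set.Ioi z0, H v * Real.exp (-(3 * v / 2))) := by
    rw [hs1, setIntegral_union hd1 (measurableSet_Ioc.union measurableSet_Ioi) hsub1
      (hsub2.union hsub3), setIntegral_union hd2 measurableSet_Ioi hsub2 hsub3]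
  -- the part beyond z0
  have h3 : ∫ v in Set.Ioi z0, H v * Real.exp (-(3 * v / 2)) ≤
      Real.log 3 * (2 / 3 * Real.exp (-(3 * z0 / 2))) := by
    rw [← exp_val z0, ← integral_const_mul]
    refine setIntegral_mono_on hsub3 ((exp_int z0).const_mul _) measurableSet_Ioi fun v hv => ?_
    exact mul_le_mul_of_nonneg_right (H_le h hv) (Real.exp_pos _).le
  -- the middle part
  have hsub2' : IntegrableOn (fun v => H v * Real.exp (3 * v / 2)) (Set.Ioc V z0) :=
    hp1.mono_set fun v hv => ⟨lt_of_le_of_lt hV hv.1, hv.2⟩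
  have h2 : ∫ v in Set.Ioc V z0, H v * Real.exp (-(3 * v / 2)) ≤ Real.exp (-(3 * V)) * (5 * E) := by
    have h4 : ∫ v in Set.Ioc V z0, H v * Real.exp (-(3 * v / 2)) ≤
        ∫ v in Set.Ioc V z0, Real.exp (-(3 * V)) * (H v * Real.exp (3 * v / 2)) := by
      refine setIntegral_mono_on hsub2 (hsub2'.const_mul _) measurableSet_Ioc fun v hv => ?_
      have h5 : Real.exp (-(3 * v / 2)) ≤ Real.exp (-(3 * V)) * Real.exp (3 * v / 2) := by
        rw [← Real.exp_add]
        apply Real.exp_le_exp.2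
        linarith [hv.1]
      calc H v * Real.exp (-(3 * v / 2)) ≤ H v * (Real.exp (-(3 * V)) * Real.exp (3 * v / 2)) :=
            mul_le_mul_of_nonneg_left h5 (hH0 v)
        _ = _ := by ring
    refine h4.trans ?_
    rw [integral_const_mul]
    refine mul_le_mul_of_nonneg_left ?_ (Real.exp_pos _).le
    refine le_trans ?_ hp2
    refine setIntegral_mono_set hp1 ?_ ?_
    · exact Filter.Eventually.of_forall fun v => mul_nonneg (hH0 v) (Real.exp_pos _).le
    · exact (Set.Ioc_subset_Ioc_left hV).eventuallyLE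
  -- the value at zero
  set κ : ℝ := 3 / 2 + δ with hκ
  have hharn : ∀ u v : ℝ, H u ≤ Real.exp (κ * |u - v|) * H v := by
    intro u v
    have h5 := h.harn (3 / (2 * κ)) (by positivity) (by
      rw [div_lt_one (by positivity), hκ]; linarith) u v
    have h6 : 3 / (2 * (3 / (2 * κ))) = κ := by
      have : κ ≠ 0 := by positivity
      field_simp
    rw [h6] at h5
    exact h5
  have hden : 0 < 1 - Real.exp (-(δ * z0)) := by
    have : Real.exp (-(δ * z0)) < 1 := Real.exp_lt_one_iff.2 (by nlinarith)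
    linarith
  have hHz : H 0 ≤ E * (5 * δ / (1 - Real.exp (-(δ * z0)))) := by
    have h5 : ∫ v in Set.Ioc 0 z0, H 0 * Real.exp (-δ * v) ≤
        ∫ v in Set.Ioc 0 z0, H v * Real.exp (3 * v / 2) := by
      refine setIntegral_mono_on ?_ hp1 measurableSet_Ioc fun v hv => ?_
      · exact (Continuous.integrableOn_Ioc (by fun_prop))
      · have h6 := hharn 0 v
        rw [zero_sub, abs_neg, abs_of_pos hv.1] at h6
        have h7 : Real.exp (-δ * v) * Real.exp (κ * v) = Real.exp (3 * v / 2) := by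
          rw [← Real.exp_add, hκ]
          congr 1
          ring
        calc H 0 * Real.exp (-δ * v) ≤ (Real.exp (κ * v) * H v) * Real.exp (-δ * v) :=
              mul_le_mul_of_nonneg_right h6 (Real.exp_pos _).le
          _ = H v * (Real.exp (-δ * v) * Real.exp (κ * v)) := by ring
          _ = H v * Real.exp (3 * v / 2) := by rw [h7]
    have h6 : ∫ v in Set.Ioc 0 z0, H 0 * Real.exp (-δ * v) =
        H 0 * ((1 - Real.exp (-(δ * z0))) / δ) := by
      rw [integral_const_mul, ← intervalIntegral.integral_of_le hz.le,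
        intervalIntegral.integral_comp_mul_left (fun x => Real.exp x) (neg_ne_zero.2 hδ.ne'),
        integral_exp]
      congr 1
      rw [mul_zero, Real.exp_zero, smul_eq_mul]
      have : -δ * z0 = -(δ * z0) := by ring
      rw [this]
      field_simp
      ring
    rw [h6] at h5
    have h7 := h5.trans hp2
    have h8 : H 0 * (1 - Real.exp (-(δ * z0))) ≤ 5 * E * δ := by
      rw [← mul_div_assoc, div_le_iff₀ hδ] at h7
      exact h7
    rw [← mul_div_assoc, le_div_iff₀ hden]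
    linarith
  -- the first part
  have h1 : ∫ v in Set.Ioc 0 V, H v * Real.exp (-(3 * v / 2)) ≤
      V * (Real.exp (κ * V) * H 0) := by
    have h5 : ∫ v in Set.Ioc 0 V, H v * Real.exp (-(3 * v / 2)) ≤
        ∫ _v in Set.Ioc 0 V, Real.exp (κ * V) * H 0 := by
      refine setIntegral_mono_on hsub1 (Continuous.integrableOn_Ioc continuous_const) measurableSet_Ioc fun v hv => ?_
      have h6 := hharn v 0
      rw [sub_zero, abs_of_pos hv.1] at h6
      have h7 : Real.exp (-(3 * v / 2)) ≤ 1 := Real.exp_le_one_iff.2 (by linarith [hv.1])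
      have h8 : Real.exp (κ * v) ≤ Real.exp (κ * V) :=
        Real.exp_le_exp.2 (mul_le_mul_of_nonneg_left hv.2 (by positivity))
      calc H v * Real.exp (-(3 * v / 2)) ≤ H v * 1 := mul_le_mul_of_nonneg_left h7 (hH0 v)
        _ = H v := mul_one _
        _ ≤ Real.exp (κ * v) * H 0 := h6
        _ ≤ Real.exp (κ * V) * H 0 := mul_le_mul_of_nonneg_right h8 (hH0 0)
    refine h5.trans (le_of_eq ?_)
    rw [setIntegral_const, smul_eq_mul, Measure.real, Real.volume_Ioc,
      ENNReal.toReal_ofReal (by linarith), sub_zero]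
  change Real.exp (-(3 * z0 / 2)) * ∫ v in Set.Ioi (0 : ℝ), H v * Real.exp (-(3 * v / 2)) ≤ _
  rw [hsplit, mul_add, mul_add]
  have a1 : Real.exp (-(3 * z0 / 2)) * ∫ v in Set.Ioc 0 V, H v * Real.exp (-(3 * v / 2)) ≤
      V * Real.exp (κ * V) * (5 * δ / (1 - Real.exp (-(δ * z0)))) := by
    rw [hEinv]
    calc E⁻¹ * ∫ v in Set.Ioc 0 V, H v * Real.exp (-(3 * v / 2))
        ≤ E⁻¹ * (V * (Real.exp (κ * V) * (E * (5 * δ / (1 - Real.exp (-(δ * z0))))))) := by
          refine mul_le_mul_of_nonneg_left (h1.trans ?_) (inv_pos.2 hEpos).le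
          exact mul_le_mul_of_nonneg_left (mul_le_mul_of_nonneg_left hHz (Real.exp_pos _).le) hV
      _ = V * Real.exp (κ * V) * (5 * δ / (1 - Real.exp (-(δ * z0)))) := by
          field_simp
  have a2 : Real.exp (-(3 * z0 / 2)) * ∫ v in Set.Ioc V z0, H v * Real.exp (-(3 * v / 2)) ≤
      5 * Real.exp (-(3 * V)) := by
    rw [hEinv]
    calc E⁻¹ * ∫ v in Set.Ioc V z0, H v * Real.exp (-(3 * v / 2))
        ≤ E⁻¹ * (Real.exp (-(3 * V)) * (5 * E)) :=
          mul_le_mul_of_nonneg_left h2 (inv_pos.2 hEpos).le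
      _ = 5 * Real.exp (-(3 * V)) := by
          field_simp
  have a3 : Real.exp (-(3 * z0 / 2)) * ∫ v in Set.Ioi z0, H v * Real.exp (-(3 * v / 2)) ≤
      2 / 3 * Real.log 3 * Real.exp (-(3 * z0 / 2)) := by
    have hle : Real.exp (-(3 * z0 / 2)) ≤ 1 := Real.exp_le_one_iff.2 (by linarith)
    have h0 : 0 ≤ ∫ v in Set.Ioi z0, H v * Real.exp (-(3 * v / 2)) :=
      setIntegral_nonneg measurableSet_Ioi fun v _ => mul_nonneg (hH0 v) (Real.exp_pos _).le
    calc Real.exp (-(3 * z0 / 2)) * ∫ v in Set.Ioi z0, H v * Real.exp (-(3 * v / 2))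
        ≤ 1 * ∫ v in Set.Ioi z0, H v * Real.exp (-(3 * v / 2)) :=
          mul_le_mul_of_nonneg_right hle h0
      _ ≤ Real.log 3 * (2 / 3 * Real.exp (-(3 * z0 / 2))) := by rw [one_mul]; exact h3
      _ = _ := by ring
  linarith

end MassAux

open MassAux in
theorem cl_mass (hp : S_pos) (he : S_ev) : S_mass := by
  intro θ z0 s r lam h
  refine ⟨fun n => H_int he (h n), ?_⟩
  have hC : 0 < Real.cos (3 * θ / 2) := by
    have h0 := (h 0).th0
    have h1 := (h 0).th1
    exact Real.cos_pos_of_mem_Ioo ⟨by linarith [Real.pi_pos], by linarith⟩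
  -- z0 tends to infinity
  have hE : Tendsto (fun n => Real.exp (3 * z0 n / 2)) atTop atTop := by
    refine tendsto_atTop_mono (fun n => ?_) ((tendsto_natCast_atTop_atTop).atTop_mul_const hC)
    have h1 := (hp _ θ _ _ _ _ (h n)).1
    have h2 : Real.sinh (3 * z0 n / 2) ≤ Real.exp (3 * z0 n / 2) := by
      rw [Real.sinh_eq]
      have := Real.exp_pos (-(3 * z0 n / 2))
      have := Real.exp_pos (3 * z0 n / 2)
      linarith
    push_cast at h1
    nlinarith
  have hz : Tendsto z0 atTop atTop := by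
    have h1 := (Real.tendsto_log_atTop.comp hE).atTop_mul_const (by norm_num : (0 : ℝ) < 2 / 3)
    refine h1.congr fun n => ?_
    simp only [Function.comp, Real.log_exp]
    ring
  have hnn : ∀ n, 0 ≤ Real.exp (-(3 * z0 n / 2)) * ∫ v in Set.Ioi (0 : ℝ),
      (Real.log 3 - Real.log (1 - s n v)) * Real.exp (-(3 * v / 2)) := fun n =>
    mul_nonneg (Real.exp_pos _).le (setIntegral_nonneg measurableSet_Ioi fun v _ =>
      mul_nonneg (H_nonneg (h n) v) (Real.exp_pos _).le)
  rw [Metric.tendsto_atTop']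
  intro ε hε
  -- choice of V
  obtain ⟨V, hV0, hV⟩ : ∃ V : ℝ, 0 ≤ V ∧ 5 * Real.exp (-(3 * V)) < ε / 3 := by
    have h1 : Tendsto (fun V : ℝ => 5 * Real.exp (-(3 * V))) atTop (𝓝 (5 * 0)) :=
      (Real.tendsto_exp_neg_atTop_nhds_zero.comp
        (tendsto_id.const_mul_atTop (by norm_num : (0 : ℝ) < 3))).const_mul 5
    rw [mul_zero] at h1
    obtain ⟨V, hV⟩ := ((h1.eventually (gt_mem_nhds (by positivity : 0 < ε / 3))).and
      (eventually_ge_atTop 0)).exists
    exact ⟨V, hV.2, hV.1⟩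
  -- choice of δ
  obtain ⟨δ, hδ0, hδ⟩ : ∃ δ : ℝ, 0 < δ ∧ V * Real.exp ((3 / 2 + δ) * V) * (10 * δ) < ε / 3 := by
    have h1 : Tendsto (fun δ : ℝ => V * Real.exp ((3 / 2 + δ) * V) * (10 * δ)) (𝓝[>] 0)
        (𝓝 (V * Real.exp ((3 / 2 + 0) * V) * (10 * 0))) := by
      refine Tendsto.mono_left ?_ nhdsWithin_le_nhds
      have : Continuous (fun δ : ℝ => V * Real.exp ((3 / 2 + δ) * V) * (10 * δ)) := by fun_prop
      exact this.tendsto 0
    rw [mul_zero, mul_zero] at h1
    obtain ⟨δ, hδ⟩ := ((h1.eventually (gt_mem_nhds (by positivity : 0 < ε / 3))).and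
      self_mem_nhdsWithin).exists
    exact ⟨δ, hδ.2, hδ.1⟩
  have e1 : ∀ᶠ n in atTop, V ≤ z0 n := hz.eventually_ge_atTop V
  have e2 : ∀ᶠ n in atTop, Real.exp (-(δ * z0 n)) < 1 / 2 := by
    have h1 : Tendsto (fun n => Real.exp (-(δ * z0 n))) atTop (𝓝 0) :=
      Real.tendsto_exp_neg_atTop_nhds_zero.comp (hz.const_mul_atTop hδ0)
    exact h1.eventually (gt_mem_nhds (by norm_num))
  have e3 : ∀ᶠ n in atTop, 2 / 3 * Real.log 3 * Real.exp (-(3 * z0 n / 2)) < ε / 3 := by
    have h1 : Tendsto (fun n => 2 / 3 * Real.log 3 * Real.exp (-(3 * z0 n / 2))) atTop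
        (𝓝 (2 / 3 * Real.log 3 * 0)) := by
      refine Tendsto.const_mul _ ?_
      have := hE.inv_tendsto_atTop
      refine this.congr fun n => ?_
      simp only [Pi.inv_apply]
      rw [Real.exp_neg]
    rw [mul_zero] at h1
    exact h1.eventually (gt_mem_nhds (by positivity))
  obtain ⟨n0, hn0⟩ := (e1.and (e2.and e3)).exists_forall_of_atTop
  refine ⟨n0, fun n hn => ?_⟩
  obtain ⟨b1, b2, b3⟩ := hn0 n hn.le
  rw [Real.dist_eq, sub_zero, abs_of_nonneg (hnn n)]
  refine (bound hp he (h n) hV0 b1 hδ0).trans_lt ?_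
  have h4 : 5 * δ / (1 - Real.exp (-(δ * z0 n))) ≤ 10 * δ := by
    rw [div_le_iff₀ (by linarith)]
    nlinarith
  have h5 : V * Real.exp ((3 / 2 + δ) * V) * (5 * δ / (1 - Real.exp (-(δ * z0 n)))) ≤
      V * Real.exp ((3 / 2 + δ) * V) * (10 * δ) :=
    mul_le_mul_of_nonneg_left h4 (mul_nonneg hV0 (Real.exp_pos _).le)
  linarith

end W96CL
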